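import Pool.Agent.R871.SG.Arith

/-!
MP_f82ddf_nt, Q1: if a projective variety has only finitely many rational points over all finite
extensions of its field of definition, then it contains no nonconstant entire curves of slow growth.
-/

set_option autoImplicit false

namespace Pool.Agent.Results.MP_f82ddf_nt.SlowCurvesAndPoints

open MvPolynomial Pool.Agent.R871.SG

/-- Let `X = {F = 0}` be a projective variety over a number field `K`, and let `τ` be an embedding of
`K` into the complex numbers. There is a function `φ` with `φ r / log r → ∞` for `r → ∞` which has the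
following property. Let `Z = {G = 0}` be a closed subset of `X` such that `X(L)` has only finitely many
points outside `Z`, for every finite extension `L` of `K`. Then every nonconstant entire curve `f` in
`X_τ`, with homogeneous coordinates without common zeros such that `log ‖f z‖ ≤ φ r` for `‖z‖ ≤ r`, for
arbitrarily large `r`, lies in `Z_τ`. -/
theorem result {K : Type} [Field K] [NumberField K] {n : ℕ} {ι : Type}
    (F : ι → MvPolynomial (Fin (n + 1)) K) (hF : ∀ i, ∃ d, (F i).IsHomogeneous d) (τ : K →+* ℂ) :
    ∃ φ : ℝ → ℝ, Grows φ ∧ ∀ (κ : Type) (G : κ → MvPolynomial (Fin (n + 1)) K),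
      (∀ k, ∃ d, (G k).IsHomogeneous d) → FiniteOutside F G →
        SlowIn (fun i => map τ (F i)) Set.univ φ (fun k => map τ (G k)) := by
  obtain ⟨φ, hφ, h⟩ := approx_rational (fun i => map τ (F i))
    (fun i => (hF i).imp fun d hd => hd.map τ) isClosed_univ (fun _ _ _ => Set.mem_univ _)
  refine ⟨φ, hφ, fun κ G hG hfin => ?_⟩
  exact (slow_iff hφ h (fun _ _ _ => Set.mem_univ _)
    (fun k => (hG k).imp fun d hd => hd.map τ)).1 (rational_in_of_finite hF hG hfin τ)

end Pool.Agent.Results.MP_f82ddf_nt.SlowCurvesAndPoints
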