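import Mathlib
import Pool.Agent.R849.PR.Tfae

set_option autoImplicit false

/-!
# Lang's conjecture and points with small, cyclotomic or torsion multipliers

Let `X` be a projective variety over a field `k` of characteristic zero, the zeros of finitely many
forms `F` in projective `n`-space, and `Z` the closed subset of `X` given by the forms `G` (for `Z`
empty take `G = 1`). There are `ε d r > 0`, `M d r` and `N d r B`, which depend on nothing else, such
that the following are equivalent (`d` bounds the degrees of the forms `F`):

* over every extension of `k`, all rational curves in `X` lie in `Z`;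
* for all fields `L ⊇ k, Qbar` and all vectors `V_1, …, V_r` over `L`, at most `M d r` points of `X`
  outside `Z` have homogeneous coordinates `∑ t_j V_j` with algebraic numbers `t_j` for which
  `h(t_1 : … : t_r) < ε d r`;
* for all fields `L ⊇ k` and all vectors `V_1, …, V_r` over `L`, at most `N d r B` points of `X`
  outside `Z` have homogeneous coordinates `∑ α_j V_j` with cyclotomic integers `α_j` for which the
  mean of the squares of the absolute values of the complex conjugates is at most `B`;
* for all `L ⊇ k` and all vectors `V_1, …, V_r` over `L`, finitely many points of `X` outside `Z`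
  have homogeneous coordinates `∑ ζ_j V_j` with roots of unity `ζ_j`.

If `k` is a number field it is enough to consider `L = Qbar` in the last condition and complex
rational curves in the first, and these are also equivalent to the condition that all
nonconstant entire curves in `X_σ` with homogeneous coordinates of exponential type lie in `Z_σ`.
Both conditions of Lang's conjecture (all entire curves in `X_σ` lie in `Z_σ`; `X(L)` has only
finitely many points outside `Z` for all number fields `L`) imply these uniform bounds.
-/

namespace Pool.Agent.Results.MP_f82ddf_nt.UniformMultipliers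

open MvPolynomial Pool.Agent.R849.PR
open Pool.Agent.W235.PR (ExpCurvesIn RatCurvesIn EntireCurvesIn RationalFinite)
open scoped NumberField

theorem result : ∃ (ε : ℕ → ℕ → ℝ) (M : ℕ → ℕ → ℕ) (N : ℕ → ℕ → ℝ → ℕ),
    (∀ d r : ℕ, 1 ≤ d → 0 < ε d r) ∧
    (∀ (k : Type) [Field k] [CharZero k] (ι κ : Type) [Finite ι] (n : ℕ)
      (F : ι → MvPolynomial (Fin (n + 1)) k) (G : κ → MvPolynomial (Fin (n + 1)) k),
      (∀ i, ∃ e, (F i).IsHomogeneous e) →
      List.TFAE [RatIn F G, SmallUniform ε M F G, CycUniform N F G, TorsFinite F G]) ∧
    (∀ (K : Type) [Field K] [NumberField K] (σ : K →+* ℂ) (ι κ : Type) [Finite ι] (n : ℕ)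
      (F : ι → MvPolynomial (Fin (n + 1)) (𝓞 K)) (G : κ → MvPolynomial (Fin (n + 1)) (𝓞 K)),
      (∀ i, ∃ e, (F i).IsHomogeneous e) → (∀ l, ∃ e, (G l).IsHomogeneous e) →
      List.TFAE [ExpCurvesIn σ F G, RatCurvesIn σ F G, RatIn (overK F) (overK G),
        SmallUniform ε M (overK F) (overK G), CycUniform N (overK F) (overK G),
        TorsFinite (overK F) (overK G), TorsFiniteQbar (overK F) (overK G)] ∧
      (EntireCurvesIn σ F G → SmallUniform ε M (overK F) (overK G)) ∧
      (RationalFinite F G → SmallUniform ε M (overK F) (overK G))) := by
  obtain ⟨N, hN⟩ := cyc_of_rat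
  refine ⟨epsP, MP, N, fun d r hd => epsP_pos d r hd,
    fun k _ _ ι κ _ n F G hF => tfae_gen N hN F G hF, fun K _ _ σ ι κ _ n F G hF hG => ?_⟩
  have h0 := tfae_num σ F G N hN hF hG
  refine ⟨h0, fun h => (h0.out 0 3).1 (Pool.Agent.W235.PR.exp_of_entire σ F G hF hG h), fun h => ?_⟩
  have h1 := Pool.Agent.W235.PR.rec_of_rational F G h
  exact (h0.out 0 3).1 (((Pool.Agent.W235.PR.tfae σ F G hF hG).out 5 0).1 h1)

end Pool.Agent.Results.MP_f82ddf_nt.UniformMultipliers
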