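import Mathlib
import Pool.Agent.R393.UO.Num
import Pool.Agent.R393.UH.PtsGen

set_option autoImplicit false

/-!
# Lang's conjecture: all but boundedly many points of an orbit lie on rational curves

Let `X` be the zeros, in projective `n`-space over a field `k` of characteristic zero, of a family
`F` of forms of degree at most `d`.

**Families.**  Let `H` be a group and `L ⊇ k` a field.  A family of vectors `x(h)`, `h ∈ H`, over `L`
is given by iterated recurrences of complexity `(s, r, e)` (`IterVec s r e x`) if there are functions
`X_1, …, X_s` on `H` with values in the invertible `r × r` matrices over `L` such that for each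
`g ∈ H` the entries of `X_l(g h) X_l(h)⁻¹` are, for all `h ∈ H`, values of fixed polynomials of
degree at most `e` in each variable at the entries of the `X_i(h)`, `X_i(h)⁻¹`, `i < l`, and the
coordinates of `x(h)` are such polynomials in the entries of all `X_i(h)`, `X_i(h)⁻¹`.  For
`s = e = 1` this includes the orbits `x(h) = M ρ(h) v` of arbitrary groups of `r × r` matrices (see
`orbit_bound`): the group need not be finitely generated, and it can be finite of any order.

**Theorem.** There is a number `B n d s r e`, which depends on nothing else, such that:

(1) (`PointsOnRat`) for all `s, r, e`, all fields `L ⊇ k`, all groups `H` and all families `x(h)`,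
`h ∈ H`, on (the cone over) `X` given by iterated recurrences of complexity `(s, r, e)`, all but at
most `B n d s r e` of the points with homogeneous coordinates `x(h)` lie on nonconstant rational
curves in `X`, given by polynomials of degree at most `B n d s r e` over an extension of `L`.

(2) For every closed subset `Z`, given by a family `G` of forms of any degrees (for `Z` empty take
`G = 1`; only the points of `X` outside `Z` matter), the following are equivalent:

* (`RatIn`) over every extension of `k`, all rational curves in `X` lie in `Z`;
* (`FamiliesBounded`) for all `s, r, e` and all families `x(h)`, `h ∈ H`, as in (1) at most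
  `B n d s r e` points outside `Z` have homogeneous coordinates `x(h)`;
* (`SequencesFinite`) all sequences of points of `X` indexed by the integers and given by
  recurrences of complexity `(1, 2, e)` have only finitely many points outside `Z`.

(3) If `k = K` is a number field with an embedding `σ` in `ℂ`, then the last condition is only needed
for number fields `L`, the first one is equivalent to its version over `ℂ`, and each of the two
conditions of Lang's conjecture for `X` and `Z` (all entire curves in `X_σ` lie in `Z_σ`; `X(L)` has
only finitely many points outside `Z` for all number fields `L ⊇ K`) implies the absolute bounds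
`FamiliesBounded`.

So an orbit of a group of `r × r` matrices over ANY field `L ⊇ k` which lies in `X` has at most
`B n d 1 r 1` points which do not lie on rational curves of degree at most `B n d 1 r 1` in `X`, and
this bound depends neither on `X`, `k` and `L` nor on the group.

The proof is by compactness. If there were no bound, a homomorphism `Θ` from the ring of sequences of
complex numbers to `ℂ`, which kills the sequences with finitely many nonzero terms, would give a
family over the product of the groups, with infinitely many points, on the limit variety; so, by the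
theorem on iterated recurrences (`Pool.Agent.Y377.IR`), through the generic point of the closure of a
part of this family passes a rational curve. By a theorem on the specialisation of rational curves
(`Pool.Agent.R393.UH.spec_curve`: if a rational curve of degree at most `N` in `X` passes through a
point, then also through all its specialisations, proved with a valuation ring which dominates the
local ring of the specialisation, and Newton polygons) rational curves pass through the members of
the limit family; they can be chosen over the algebraically closed field which is the image of `Θ`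
and lifted to rational curves of the same degree in the given varieties.
-/

namespace Pool.Agent.Results.MP_f82ddf_nt.UniformOrbits

open MvPolynomial Pool.Agent.R393.UO Pool.Agent.R393.UH Pool.Agent.Y377.ST Pool.Agent.TH717.GO
open Pool.Agent.R849.PR (RatIn overK)
open Pool.Agent.W235.PR (RatCurvesIn EntireCurvesIn RationalFinite)
open scoped NumberField

/-- the special case of orbits of groups of matrices -/
theorem orbit_bound {B : ℕ → ℕ → ℕ → ℕ → ℕ → ℕ} {k : Type} [Field k] {ι : Type} {n d : ℕ}
    {F : ι → MvPolynomial (Fin (n + 1)) k}
    (h : PointsOnRat B d F) (r : ℕ) (L : Type) [Field L] [Algebra k L] (H : Type) [Group H]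
    (ρ : H →* Matrix.GeneralLinearGroup (Fin r) L) (M : Matrix (Fin (n + 1)) (Fin r) L)
    (v : Fin r → L) (hX : ∀ h i, aeval (orb M ρ v h) (F i) = 0) :
    (offRat (B n d 1 r 1) (fun i => map (algebraMap k L) (F i)) (orb M ρ v)).encard ≤ B n d 1 r 1 :=
  h 1 r 1 L H (orb M ρ v) (iterVec_orb M ρ v) hX

/-- **Lang's conjecture and families given by iterated recurrences.** -/
theorem result : ∃ B : ℕ → ℕ → ℕ → ℕ → ℕ → ℕ,
    (∀ (k : Type) [Field k] [CharZero k] (ι : Type) (n d : ℕ)
      (F : ι → MvPolynomial (Fin (n + 1)) k), (∀ i, ∃ e, e ≤ d ∧ (F i).IsHomogeneous e) →
      PointsOnRat B d F) ∧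
    (∀ (k : Type) [Field k] [CharZero k] (ι κ : Type) (n d : ℕ)
      (F : ι → MvPolynomial (Fin (n + 1)) k) (G : κ → MvPolynomial (Fin (n + 1)) k),
      (∀ i, ∃ e, e ≤ d ∧ (F i).IsHomogeneous e) → (∀ l, ∃ e, (G l).IsHomogeneous e) →
      List.TFAE [RatIn F G, FamiliesBounded B d F G, SequencesFinite F G]) ∧
    (∀ (K : Type) [Field K] [NumberField K] (σ : K →+* ℂ) (ι κ : Type) [Finite ι] (n d : ℕ)
      (F : ι → MvPolynomial (Fin (n + 1)) (𝓞 K)) (G : κ → MvPolynomial (Fin (n + 1)) (𝓞 K)),
      (∀ i, ∃ e, e ≤ d ∧ (F i).IsHomogeneous e) → (∀ l, ∃ e, (G l).IsHomogeneous e) →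
      List.TFAE [RatCurvesIn σ F G, RatIn (overK F) (overK G),
        FamiliesBounded B d (overK F) (overK G), SequencesFiniteNF (overK F) (overK G)] ∧
      (EntireCurvesIn σ F G → FamiliesBounded B d (overK F) (overK G)) ∧
      (RationalFinite F G → FamiliesBounded B d (overK F) (overK G))) := by
  refine ⟨TT, fun k _ _ ι n d F hF => pointsOnRat F hF, fun k _ _ ι κ n d F G hF hG => ?_,
    fun K _ _ σ ι κ _ n d F G hF hG => ?_⟩
  · tfae_have 1 → 2 := families_of_points F G (pointsOnRat F hF)
    tfae_have 2 → 3 := seq_of_bounded
    tfae_have 3 → 1 := rat_of_seq F G
    tfae_finish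
  · have hF' : ∀ i, ∃ e, (F i).IsHomogeneous e := fun i => by
      obtain ⟨e, -, he⟩ := hF i
      exact ⟨e, he⟩
    have hFK : ∀ i, ∃ e, e ≤ d ∧ (overK F i).IsHomogeneous e := fun i => by
      obtain ⟨e, h1, he⟩ := hF i
      exact ⟨e, h1, he.map _⟩
    obtain ⟨N, hN⟩ := Pool.Agent.R849.PR.cyc_of_rat
    have h0 := Pool.Agent.R849.PR.tfae_num σ F G N hN hF' hG
    have h23 : RatIn (overK F) (overK G) → FamiliesBounded TT d (overK F) (overK G) :=
      families_of_points _ _ (pointsOnRat _ hFK)
    refine ⟨?_, fun h => h23 ((h0.out 0 2).1 (Pool.Agent.W235.PR.exp_of_entire σ F G hF' hG h)),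
      fun h => h23 ((h0.out 0 2).1 (((Pool.Agent.W235.PR.tfae σ F G hF' hG).out 5 0).1
        (Pool.Agent.W235.PR.rec_of_rational F G h)))⟩
    tfae_have 1 ↔ 2 := h0.out 1 2
    tfae_have 2 → 3 := h23
    tfae_have 3 → 4 := fun h e L _ _ _ x hx hX =>
      Set.finite_of_encard_le_coe (h 1 2 e L (Multiplicative ℤ) x hx hX)
    tfae_have 4 → 2 := rat_of_seqNF (overK F) (overK G)
    tfae_finish

end Pool.Agent.Results.MP_f82ddf_nt.UniformOrbits
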