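import Pool.Agent.R477.WA.Reg

set_option autoImplicit false

/-!
# Lang's equivalence for weighted automata and regular sequences of points

Let `X` and `Z` be the projective varieties over a number field `K`, embedded in `ℂ` by `σ`, given
by the forms in the ideals `I` and `I'` of `K[x_0, ..., x_N]` (for `I' = ⊤` the variety `Z` is
empty).

A weighted automaton over a field `L ⊇ K` attaches to a word `w = w_1 ⋯ w_n` over a finite alphabet
the vector `M A_{w_n} ⋯ A_{w_1} v`, where the transition matrices `A_a` are ARBITRARY square
matrices: they need not be invertible, and the monoid generated by them is in general neither
commutative nor contained in a group. For words which are the expansions of the natural numbers in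
base `k` these are the `k`-regular sequences of Allouche and Shallit.

The following are equivalent:

* (`NoRat`) there is no nonconstant map from the projective line over `ℂ` to `X` with image not
  contained in `Z`;
* (`WeightedAutomata`) for all fields `L ⊇ K` every weighted automaton over `L` whose values on a
  regular language `R` are homogeneous coordinates of points `P w` of `X(L)` is, outside of `Z`, a
  finite automaton: the map `P` has only finitely many values outside of `Z`, each of them is
  attained on a regular language, and the words with a value in `Z` form a regular language;
* (`RegularAutomatic k` for all `k ≥ 2`) for all fields `L ⊇ K` every `k`-regular sequence of points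
  of `X(L)` is, outside of `Z`, a `k`-automatic sequence with finitely many values;
* (`RegularFinite k` for one `k ≥ 2`) for all number fields `L ⊇ K` only finitely many points of a
  `k`-regular sequence of points of `X(L)` are outside of `Z`.

Both sides of Lang's conjecture, hyperbolicity and finiteness of the sets of rational points (for
`Z` instead of the empty set), imply these conditions.

The proof. For groups of matrices the library contains the constancy of the points along the cosets
of a subgroup of finite index (`const_off`, `Pool/Agent/Y377/AO/Proj.lean`). A weighted automaton is
written as a finite system of subspaces and linear maps between them (`Pool/Agent/R477/WA/Sys.lean`).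
The transitions which are isomorphisms between subspaces of the maximal dimension `d` form a graph;
in a source component of this graph all closed paths generate a finitely generated group of
matrices, polynomial equations which hold for the monoid of the closed paths hold for the group
(`Clo.lean`), and by the theorem on groups a position reached by a path can be replaced, without a
change of its future behaviour, by the position reached by one of finitely many paths. This gives an
equivalent system with fewer subspaces of dimension `d` (`Step.lean`), until all subspaces have
dimension at most one.
-/

namespace Pool.Agent.Results.MP_f82ddf_nt.WeightedAutomataLang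

open MvPolynomial Pool.Agent.Y719.SU Pool.Agent.R477.WA

theorem result {K : Type} [Field K] [NumberField K] (σ : K →+* ℂ) {N : ℕ}
    (I I' : Ideal (MvPolynomial (Fin (N + 1)) K)) :
    List.TFAE [NoRat σ I I', WeightedAutomata I I', ∀ k, 2 ≤ k → RegularAutomatic k I I',
      ∃ k, 2 ≤ k ∧ RegularFinite k I I'] ∧
    (Hyperbolic σ I I' → WeightedAutomata I I') ∧ (Finiteness I I' → WeightedAutomata I I') := by
  obtain ⟨hm, hhyp, hfin⟩ := main σ I I'
  have e2 : NoRat σ I I' ↔ NoRatNF I I' := hm.out 0 2
  have e3 : NoRatNF I I' ↔ HtBound I I' := hm.out 2 3
  refine ⟨?_, fun h => weighted_of_noRat (e3.2 (hhyp h)), fun h => weighted_of_noRat (e3.2 (hfin h))⟩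
  tfae_have 1 → 2 := fun h => weighted_of_noRat (e2.1 h)
  tfae_have 2 → 3 := fun h k hk => automatic_of_weighted h k hk
  tfae_have 3 → 4 := fun h => ⟨2, le_rfl, fun L _ _ _ y P hy hP => (h 2 le_rfl L y P hy hP).1⟩
  tfae_have 4 → 1 := fun ⟨k, hk, h⟩ => e2.2 (noRat_of_regular k hk h)
  tfae_finish

end Pool.Agent.Results.MP_f82ddf_nt.WeightedAutomataLang
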